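import Pool.Agent.Lib_helper40.BCP.PlusDefs

/-!
Domains in which every monic polynomial has a root, and the absolute integral closure.
-/

namespace Pool.Agent.Lib_helper40.BCP

open Polynomial

universe u v w

/-- every monic polynomial of positive degree has a root -/
def AIC (D : Type*) [CommRing D] : Prop :=
  ∀ f : D[X], f.Monic → 0 < f.natDegree → ∃ z : D, f.eval z = 0

section

variable {D : Type u} [CommRing D] [IsDomain D] (F : Type v) [Field F] [Algebra D F]
  [IsFractionRing D F]

omit [IsFractionRing D F] in
theorem AIC.mem_of_root (h : AIC D) : ∀ (n : ℕ) (f : D[X]), f.natDegree = n → f.Monic →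
    ∀ z : F, aeval z f = 0 → ∃ d : D, algebraMap D F d = z := by
  intro n
  induction n with
  | zero =>
    intro f hn hf z hz
    have : f = 1 := hf.natDegree_eq_zero.1 hn
    rw [this, map_one] at hz
    exact absurd hz one_ne_zero
  | succ n ih =>
    intro f hn hf z hz
    obtain ⟨r, hr⟩ := h f hf (by omega)
    have hfac : (X - C r) * (f /ₘ (X - C r)) = f := mul_divByMonic_eq_iff_isRoot.2 hr
    have hg : (f /ₘ (X - C r)).Monic := (monic_X_sub_C r).of_mul_monic_left (by rwa [hfac])
    have hdeg : (f /ₘ (X - C r)).natDegree = n := by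
      rw [natDegree_divByMonic _ (monic_X_sub_C r), natDegree_X_sub_C, hn]
      rfl
    rw [← hfac, map_mul] at hz
    rcases mul_eq_zero.1 hz with h1 | h1
    · refine ⟨r, ?_⟩
      rw [map_sub, aeval_X, aeval_C, sub_eq_zero] at h1
      exact h1.symm
    · exact ih _ hdeg hg z h1

theorem AIC.isAlgClosed (h : AIC D) : IsAlgClosed F := by
  refine IsAlgClosed.of_exists_root F fun p hp hirr => ?_
  obtain ⟨b, hbm, hb⟩ := IsLocalization.integerNormalization_spec (nonZeroDivisors D) p
  set q := IsLocalization.integerNormalization (nonZeroDivisors D) p with hq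
  have hb0 : algebraMap D F b ≠ 0 :=
    IsFractionRing.to_map_ne_zero_of_mem_nonZeroDivisors hbm
  have hdeg : q.natDegree = p.natDegree := by
    have h1 : (q.map (algebraMap D F)).natDegree = q.natDegree :=
      natDegree_map_eq_of_injective (IsFractionRing.injective D F) q
    rw [← h1, hb]
    rw [Algebra.smul_def, Polynomial.algebraMap_apply, natDegree_C_mul hb0]
  have hpos : 0 < q.natDegree := by
    rw [hdeg]
    exact hirr.natDegree_pos
  have hq0 : q ≠ 0 := by
    intro h0
    rw [h0, natDegree_zero] at hpos
    exact lt_irrefl _ hpos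
  obtain ⟨z, hz⟩ := h (integralNormalization q) (monic_integralNormalization hq0)
    (by rw [natDegree_integralNormalization]; exact hpos)
  have hlc : algebraMap D F q.leadingCoeff ≠ 0 := by
    rw [Ne, FaithfulSMul.algebraMap_eq_zero_iff]
    exact leadingCoeff_ne_zero.2 hq0
  refine ⟨(algebraMap D F q.leadingCoeff)⁻¹ * algebraMap D F z, ?_⟩
  have h1 := integralNormalization_eval₂_leadingCoeff_mul (p := q) hpos (algebraMap D F)
    ((algebraMap D F q.leadingCoeff)⁻¹ * algebraMap D F z)
  rw [← mul_assoc, mul_inv_cancel₀ hlc, one_mul] at h1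
  have h2 : (integralNormalization q).eval₂ (algebraMap D F) (algebraMap D F z) = 0 := by
    rw [eval₂_at_apply, hz, map_zero]
  rw [h2] at h1
  have h3 := (mul_eq_zero.1 h1.symm).resolve_left (pow_ne_zero _ hlc)
  rw [← eval_map, hb] at h3
  rw [Algebra.smul_def, Polynomial.algebraMap_apply, eval_mul, eval_C] at h3
  exact (mul_eq_zero.1 h3).resolve_left hb0

end

theorem algebraMap_absIntClosure_injective (A : Type u) [CommRing A] [IsDomain A] :
    Function.Injective (algebraMap A (absIntClosure A)) := by
  have h : Function.Injective (algebraMap A (AlgebraicClosure (FractionRing A))) := by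
    rw [IsScalarTower.algebraMap_eq A (FractionRing A) (AlgebraicClosure (FractionRing A))]
    exact (algebraMap (FractionRing A) (AlgebraicClosure (FractionRing A))).injective.comp
      (IsFractionRing.injective _ _)
  intro a b hab
  exact h (congrArg Subtype.val hab)

theorem exists_hom {R : Type u} [CommRing R] [IsDomain R] {D : Type v} [CommRing D] [IsDomain D]
    (hD : AIC D) (ρ : R →+* D) (hρ : Function.Injective ρ) :
    ∃ g : absIntClosure R →+* D, ∀ r, g (algebraMap R (absIntClosure R) r) = ρ r := by
  let F := FractionRing D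
  have : IsAlgClosed F := hD.isAlgClosed F
  have hinjF : Function.Injective (algebraMap D F) := IsFractionRing.injective D F
  let σ : FractionRing R →+* F :=
    IsFractionRing.lift (g := (algebraMap D F).comp ρ) (hinjF.comp hρ)
  let _ : Algebra (FractionRing R) F := σ.toAlgebra
  let ι : AlgebraicClosure (FractionRing R) →ₐ[FractionRing R] F := IsAlgClosed.lift
  have hι : ∀ r : R, ι (algebraMap R (AlgebraicClosure (FractionRing R)) r) =
      algebraMap D F (ρ r) := by
    intro r
    rw [IsScalarTower.algebraMap_apply R (FractionRing R) (AlgebraicClosure (FractionRing R)),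
      ι.commutes]
    show σ (algebraMap R (FractionRing R) r) = _
    exact IsFractionRing.lift_algebraMap _ r
  have hmem : ∀ s : absIntClosure R, ι s.1 ∈ (algebraMap D F).range := by
    intro s
    obtain ⟨f, hf, hfs⟩ := s.2
    refine hD.mem_of_root F _ (f.map ρ) rfl (hf.map ρ) _ ?_
    have h1 : (algebraMap D F).comp ρ = (ι : AlgebraicClosure (FractionRing R) →+* F).comp
        (algebraMap R (AlgebraicClosure (FractionRing R))) := RingHom.ext fun r => (hι r).symm
    have h2 := hom_eval₂ f (algebraMap R (AlgebraicClosure (FractionRing R)))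
      (ι : AlgebraicClosure (FractionRing R) →+* F) s.1
    rw [aeval_def, eval₂_map, h1]
    refine h2.symm.trans ?_
    rw [hfs, map_zero]
  let e : D ≃+* (algebraMap D F).range :=
    RingEquiv.ofBijective (algebraMap D F).rangeRestrict
      ⟨fun a b hab => hinjF (congrArg Subtype.val hab), (algebraMap D F).rangeRestrict_surjective⟩
  let g : absIntClosure R →+* D := e.symm.toRingHom.comp
    (((ι : AlgebraicClosure (FractionRing R) →+* F).comp
      (algebraMap (absIntClosure R) (AlgebraicClosure (FractionRing R)))).codRestrict
      (algebraMap D F).range hmem)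
  have hg : ∀ s, algebraMap D F (g s) = ι s.1 := by
    intro s
    have h1 : e (g s) = ⟨ι s.1, hmem s⟩ := e.apply_symm_apply _
    exact congrArg Subtype.val h1
  refine ⟨g, fun r => hinjF ?_⟩
  rw [hg]
  exact hι r

end Pool.Agent.Lib_helper40.BCP
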