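import Pool.Agent.Lib_helper40.BCP.AIC
import Pool.Agent.Lib_helper40.UProd

namespace Pool.Agent.Lib_helper40.BCP

open Polynomial

universe u v

theorem aic_absIntClosure (A : Type u) [CommRing A] [IsDomain A] : AIC (absIntClosure A) := by
  intro f hf hpos
  let Ω := AlgebraicClosure (FractionRing A)
  have hinj : Function.Injective (algebraMap (absIntClosure A) Ω) := Subtype.val_injective
  have hdeg : (f.map (algebraMap (absIntClosure A) Ω)).degree ≠ 0 := by
    rw [degree_map_eq_of_injective hinj, degree_eq_natDegree hf.ne_zero]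
    exact_mod_cast hpos.ne'
  obtain ⟨z, hz⟩ := IsAlgClosed.exists_root (f.map (algebraMap (absIntClosure A) Ω)) hdeg
  have h1 : IsIntegral (absIntClosure A) z := ⟨f, hf, by rw [← eval_map]; exact hz⟩
  have h2 : IsIntegral A z := isIntegral_trans z h1
  refine ⟨⟨z, h2⟩, ?_⟩
  apply hinj
  rw [map_zero, ← eval₂_at_apply, ← eval_map]
  exact hz

theorem aic_UProd {ι : Type u} {𝒰 : Ultrafilter ι} {A : ι → Type v} [∀ i, CommRing (A i)]
    [∀ i, IsDomain (A i)] (h : ∀ i, AIC (A i)) : AIC (UProd 𝒰 A) := by
  intro P hP hdeg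
  choose lift hlift using (umk_surjective (𝒰 := 𝒰) (A := A))
  have hroot : ∀ i, ∃ x : A i, x ^ P.natDegree +
      ∑ j ∈ Finset.range P.natDegree, lift (P.coeff j) i * x ^ j = 0 := by
    intro i
    set T : (A i)[X] := ∑ j ∈ Finset.range P.natDegree, C (lift (P.coeff j) i) * X ^ j with hT
    have h1 : T.degree < (P.natDegree : WithBot ℕ) := by
      refine (degree_sum_le _ _).trans_lt ?_
      rw [Finset.sup_lt_iff (WithBot.bot_lt_coe _)]
      intro j hj
      refine (degree_C_mul_X_pow_le _ _).trans_lt ?_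
      exact_mod_cast Finset.mem_range.mp hj
    have hmon : (X ^ P.natDegree + T).Monic := monic_X_pow_add h1
    have hnd : (X ^ P.natDegree + T).natDegree = P.natDegree := by
      have h2 : (X ^ P.natDegree + T).degree = (P.natDegree : WithBot ℕ) := by
        rw [degree_add_eq_left_of_degree_lt (by rwa [degree_X_pow]), degree_X_pow]
      exact natDegree_eq_of_degree_eq_some h2
    obtain ⟨x, hx⟩ := h i _ hmon (by rw [hnd]; exact hdeg)
    refine ⟨x, ?_⟩
    rw [eval_add, eval_pow, eval_X, hT, eval_finsetSum] at hx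
    rw [← hx]
    congr 1
    apply Finset.sum_congr rfl
    intro j _
    rw [eval_mul, eval_C, eval_pow, eval_X]
  choose x hx using hroot
  refine ⟨umk x, ?_⟩
  have h1 : P.eval (umk x : UProd 𝒰 A) = umk (fun i => x i ^ P.natDegree +
      ∑ j ∈ Finset.range P.natDegree, lift (P.coeff j) i * x i ^ j) := by
    rw [umk_add, umk_pow, umk_sum]
    conv_lhs => rw [hP.as_sum]
    rw [eval_add, eval_pow, eval_X, eval_finsetSum]
    congr 1
    apply Finset.sum_congr rfl
    intro j _
    rw [eval_mul, eval_C, eval_pow, eval_X, umk_mul, umk_pow, hlift]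
  rw [h1, umk_eq_zero_iff]
  exact Filter.Eventually.of_forall hx

end Pool.Agent.Lib_helper40.BCP
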