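import Pool.Agent.Lib_helper40.BCP.Mono
import Pool.Agent.Lib_helper40.BCP.UD
import Pool.Agent.Lib_helper40.CharZero2

namespace Pool.Agent.Lib_helper40.BCP

open Filter Polynomial

/-- the big Cohen-Macaulay algebra over `ℂ[x, y]_(x, y)` -/
theorem exists_bigCM_complex_plus (lam : ℂ) (hlam : Transcendental ℤ lam) :
    ∃ (B : Type) (_ : CommRing B) (_ : Algebra (Rloc ℂ) B), IsBigCM (Rloc ℂ) B ∧
      Nonempty (absIntClosure (Rloc ℂ) →ₐ[Rloc ℂ] B) ∧
      ∃ v a b c : B,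
        v ^ 4 = algebraMap (Rloc ℂ) B (algebraMap (MvPolynomial (Fin 2) ℂ) (Rloc ℂ)
          (MvPolynomial.X 0 ^ 8 + MvPolynomial.C lam * MvPolynomial.X 0 ^ 4 *
            MvPolynomial.X 1 ^ 4 + MvPolynomial.X 1 ^ 8)) ∧
        algebraMap (Rloc ℂ) B (algebraMap (MvPolynomial (Fin 2) ℂ) (Rloc ℂ)
          (MvPolynomial.X 0 ^ 2 * MvPolynomial.X 1 ^ 2)) =
          a * algebraMap (Rloc ℂ) B (algebraMap (MvPolynomial (Fin 2) ℂ) (Rloc ℂ)
            (MvPolynomial.X 0 ^ 3)) +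
          b * algebraMap (Rloc ℂ) B (algebraMap (MvPolynomial (Fin 2) ℂ) (Rloc ℂ)
            (MvPolynomial.X 1 ^ 3)) + c * v := by
  obtain ⟨t, ht, hτ⟩ := exists_generic_family
  obtain ⟨θ, hθ⟩ := exists_embed (UProd VV kk)
    (continuum_le_card VV_le (fun i => i.1) Subtype.val_injective (fun i => i.2.1.pos) kk)
    (umk (fun i => t i ^ i.1)) hτ lam hlam
  have hmi : ∀ i : I3, i.1 = 4 * (i.1 / 4) + 3 := by
    intro i
    have := i.2.2
    omega
  have hgen : ∀ i : I3, ∃ C0 A0 B0 : (kk i)[X], C0.natDegree ≤ 2 * (i.1 / 4) ∧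
      A0.natDegree < i.1 / 4 + 1 ∧ B0.natDegree < i.1 / 4 + 1 ∧
      C0 * qq (t i) ^ (i.1 / 4 + 1) = X ^ (i.1 / 4 + 1 + i.1 / 4) + B0 +
        X ^ (i.1 / 4 + 1 + 2 * (i.1 / 4) + 1) * A0 :=
    fun i => generic_params (by omega) (by omega) (ht i)
  choose C0 A0 B0 hC0 hA0 hB0 hCAB using hgen
  let x : ∀ i, PP i := fun i => MvPowerSeries.X 0
  let y : ∀ i, PP i := fun i => MvPowerSeries.X 1
  let Gi : ∀ i, PP i := fun i =>
    x i ^ 8 + algebraMap (kk i) (PP i) (t i) * x i ^ 4 * y i ^ 4 + y i ^ 8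
  let Ch : ∀ i, PP i := fun i => hev (2 * (i.1 / 4)) (C0 i) (x i ^ 4) (y i ^ 4)
  let Ah : ∀ i, PP i := fun i => hev (i.1 / 4) (A0 i) (x i ^ 4) (y i ^ 4)
  let Bh : ∀ i, PP i := fun i => hev (i.1 / 4) (B0 i) (x i ^ 4) (y i ^ 4)
  have hG2 : ∀ i, hev 2 (qq (t i)) (x i ^ 4) (y i ^ 4) = Gi i := by
    intro i
    rw [hev_qq]
    show _ = x i ^ 8 + algebraMap (kk i) (PP i) (t i) * x i ^ 4 * y i ^ 4 + y i ^ 8
    ring
  have hhom : ∀ i, Ch i * Gi i ^ (i.1 / 4 + 1) =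
      (x i ^ 4) ^ (2 * (i.1 / 4) + 1) * (y i ^ 4) ^ (2 * (i.1 / 4) + 1) +
      (y i ^ 4) ^ (3 * (i.1 / 4) + 2) * Bh i + (x i ^ 4) ^ (3 * (i.1 / 4) + 2) * Ah i := by
    intro i
    have := generic_hom (hC0 i) (hA0 i) (hB0 i) (hCAB i) (x i ^ 4) (y i ^ 4)
    rw [hG2] at this
    exact this
  let G : DD := umk Gi
  let E : Type := UProd VV (fun i => absIntClosure (PP i))
  let o : DD →+* E := umap (fun i => algebraMap (PP i) (absIntClosure (PP i)))
  have hE : AIC E := aic_UProd fun i => aic_absIntClosure (PP i)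
  have ho : Function.Injective o := by
    rw [injective_iff_map_eq_zero]
    intro z hz
    obtain ⟨f, rfl⟩ := umk_surjective z
    have hz' : (umk (fun i => algebraMap (PP i) (absIntClosure (PP i)) (f i)) : E) = 0 := hz
    rw [umk_eq_zero_iff] at hz' ⊢
    filter_upwards [hz'] with i hi
    exact algebraMap_absIntClosure_injective (PP i) (hi.trans (map_zero _).symm)
  obtain ⟨V, hV⟩ : ∃ V : E, V ^ 4 = o G := by
    obtain ⟨V, hV⟩ := hE (X ^ 4 - C (o G)) (monic_X_pow_sub_C (o G) (by norm_num))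
      (by rw [natDegree_X_pow_sub_C]; norm_num)
    rw [eval_sub, eval_pow, eval_X, eval_C, sub_eq_zero] at hV
    exact ⟨V, hV⟩
  let _ : Algebra (Rloc ℂ) E := (o.comp (PhiL θ)).toAlgebra
  have halg : ∀ r : Rloc ℂ, algebraMap (Rloc ℂ) E r = o (PhiL θ r) := fun r => rfl
  have hinj : Function.Injective (algebraMap (Rloc ℂ) E) := by
    rw [injective_iff_map_eq_zero]
    intro r hr
    by_contra hne
    exact PhiL_ne_zero θ hne ((map_eq_zero_iff o ho).1 hr)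
  have hx0 : xD 0 = umk (fun i => x i ^ i.1) := rfl
  have hx1 : xD 1 = umk (fun i => y i ^ i.1) := rfl
  have hcst : cstD θ lam = umk (fun i => algebraMap (kk i) (PP i) (t i ^ i.1)) := by
    rw [cstD, RingHom.comp_apply, hθ, umap_umk]
    rfl
  obtain ⟨g, hg⟩ := exists_hom hE (algebraMap (Rloc ℂ) E) hinj
  obtain ⟨B, hB1, hB2, hB3, ⟨f⟩⟩ := exists_bigCM (ringKrullDim_Rloc ℂ)
    (algebraMap (MvPolynomial (Fin 2) ℂ) (Rloc ℂ) (MvPolynomial.X 0))
    (algebraMap (MvPolynomial (Fin 2) ℂ) (Rloc ℂ) (MvPolynomial.X 1))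
    (maximalIdeal_Rloc ℂ) E
    (by
      intro r e hr he
      refine (mul_eq_zero.1 he).resolve_left ?_
      intro h0
      exact hr (hinj (h0.trans (map_zero _).symm)))
    (by
      intro n α β h
      rw [halg, halg, PhiL_algebraMap, PhiL_algebraMap, PhiD_X, PhiD_X, ← map_pow, ← map_pow,
        ← map_pow, ← map_pow, ← map_mul] at h
      obtain ⟨a', rfl⟩ := umk_surjective α
      obtain ⟨b', rfl⟩ := umk_surjective β
      rw [hx0, hx1, ← umk_pow, ← umk_pow, ← umk_pow, ← umk_pow, ← umk_mul, umap_umk, umap_umk,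
        umap_umk, ← umk_mul, ← umk_mul, ← umk_add, umk_eq_iff] at h
      obtain ⟨i, hi⟩ := h.exists
      rw [← pow_mul, ← pow_mul, ← pow_mul, ← pow_mul] at hi
      have hlt : i.1 * n < i.1 * (n + 1) := Nat.mul_lt_mul_of_pos_left (by omega) i.2.1.pos
      exact mono_plus i.1 hlt hlt _ _ hi)
  have hf : ∀ P : MvPolynomial (Fin 2) ℂ,
      algebraMap (Rloc ℂ) B (algebraMap (MvPolynomial (Fin 2) ℂ) (Rloc ℂ) P) =
        f (o (PhiD θ P)) := by
    intro P
    rw [← PhiL_algebraMap, ← halg, f.commutes]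
  have hplus : Nonempty (absIntClosure (Rloc ℂ) →ₐ[Rloc ℂ] B) :=
    ⟨f.comp { g with commutes' := hg }⟩
  refine ⟨B, hB1, hB2, hB3, hplus, f (o (umk fun i => Gi i ^ (i.1 / 4)) * V ^ 3),
    f (o (umk fun i => -(Ah i * x i * y i ^ 2))), f (o (umk fun i => -(Bh i * x i ^ 2 * y i))),
    f (o (umk fun i => Ch i * x i ^ 2 * y i ^ 2) * V), ?_, ?_⟩
  · rw [hf, ← map_pow]
    congr 1
    have h1 : (o (umk fun i => Gi i ^ (i.1 / 4)) * V ^ 3) ^ 4 =
        o ((umk fun i => Gi i ^ (i.1 / 4)) ^ 4 * G ^ 3) := by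
      rw [mul_pow, map_mul, map_pow, map_pow, ← hV]; ring
    rw [h1]
    congr 1
    rw [map_add, map_add, map_mul, map_mul, map_pow, map_pow, map_pow, map_pow, PhiD_X, PhiD_X,
      PhiD_C, hcst, hx0, hx1, ← umk_pow, ← umk_pow, ← umk_pow, ← umk_pow, ← umk_pow, ← umk_pow,
      ← umk_mul, ← umk_mul, ← umk_mul, ← umk_add, ← umk_add]
    congr 1
    funext i
    have := charP_ps (kk i) i.1
    exact pointwise_frob (hmi i) (x i) (y i) (t i)
  · rw [hf, hf, hf]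
    have key : o (PhiD θ (MvPolynomial.X 0 ^ 2 * MvPolynomial.X 1 ^ 2)) =
        o (umk fun i => -(Ah i * x i * y i ^ 2)) * o (PhiD θ (MvPolynomial.X 0 ^ 3)) +
        o (umk fun i => -(Bh i * x i ^ 2 * y i)) * o (PhiD θ (MvPolynomial.X 1 ^ 3)) +
        (o (umk fun i => Ch i * x i ^ 2 * y i ^ 2) * V) *
          (o (umk fun i => Gi i ^ (i.1 / 4)) * V ^ 3) := by
      have h1 : o (umk fun i => Ch i * x i ^ 2 * y i ^ 2) * V *
          (o (umk fun i => Gi i ^ (i.1 / 4)) * V ^ 3) =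
          o ((umk fun i => Ch i * x i ^ 2 * y i ^ 2) * (umk fun i => Gi i ^ (i.1 / 4)) * G) := by
        rw [map_mul, map_mul, ← hV]; ring
      rw [h1, ← map_mul o, ← map_mul o, ← map_add o, ← map_add o]
      congr 1
      rw [map_mul, map_pow, map_pow, map_pow, map_pow, PhiD_X, PhiD_X, hx0, hx1, ← umk_pow,
        ← umk_pow, ← umk_pow, ← umk_pow, ← umk_mul, ← umk_mul, ← umk_mul, ← umk_mul, ← umk_mul,
        ← umk_add, ← umk_add]
      congr 1
      funext i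
      exact pointwise_rel (hmi i) (hhom i)
    have h2 := congrArg f key
    rw [map_add f, map_add f, map_mul f, map_mul f, map_mul f (o (umk fun i =>
      Ch i * x i ^ 2 * y i ^ 2) * V)] at h2
    exact h2

end Pool.Agent.Lib_helper40.BCP
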