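import Pool.Agent.Lib_helper40.BCP.CZ
import Pool.Agent.Lib_helper40.Final2

namespace Pool.Agent.Lib_helper40.BCP

open Filter MvPolynomial

universe u v

/-- **Main theorem.** -/
theorem main_theorem_plus (𝒰 : Ultrafilter Nat.Primes) (h𝒰 : ∀ p : Nat.Primes, {p} ∉ 𝒰)
    (φ : UProd 𝒰 Fbar ≃+* ℂ) :
    ∃ (n r : ℕ) (h : Fin r → MvPolynomial (Fin n) (MvPolynomial (Fin 2) ℂ)),
      PresMapsToBigCMOverPlus.{0} ℂ h ∧
      ∀ α : ℂ → ∀ p : Nat.Primes, Fbar p, IsApproximation φ α →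
        {p : Nat.Primes | PresMapsToBigCM.{u} (Fbar p) (fun j => approxPolyY α p (h j))} ∉ 𝒰 := by
  have hcof : (𝒰 : Filter Nat.Primes) ≤ cofinite := by
    rcases 𝒰.le_cofinite_or_eq_pure with h | ⟨p, hp⟩
    · exact h
    · exfalso
      apply h𝒰 p
      rw [hp]
      exact Filter.mem_pure.mpr rfl
  obtain ⟨s, hs1, hs2⟩ := exists_special_family
  have htr : Transcendental ℤ (umk s : UProd 𝒰 Fbar) := transcendental_umk hcof s hs2
  set lam : ℂ := φ (umk s) with hlam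
  have hlamtr : Transcendental ℤ lam := by
    rw [transcendental_iff] at htr ⊢
    intro F hF
    apply htr
    apply φ.injective
    rw [map_zero, ← hF, hlam]
    have := Polynomial.aeval_algHom_apply (φ : UProd 𝒰 Fbar →+* ℂ).toIntAlgHom (umk s) F
    exact this.symm
  refine ⟨4, 2, hrel ℂ lam, ?_, ?_⟩
  · obtain ⟨B, hB1, hB2, hB3, hB4, v, a, b, c, hv, hr⟩ := exists_bigCM_complex_plus lam hlamtr
    refine ⟨B, hB1, hB2, hB3, hB4, ?_⟩
    rw [presAlg_hom_iff]
    refine ⟨![v, a, b, c], ?_⟩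
    intro j
    fin_cases j
    · show aeval ![v, a, b, c] (toLoc ℂ (hrel ℂ lam 0)) = 0
      rw [hrel_zero, sub_eq_zero]
      exact hv
    · show aeval ![v, a, b, c] (toLoc ℂ (hrel ℂ lam 1)) = 0
      rw [hrel_one, sub_eq_zero]
      exact hr
  · intro α hα hmem
    have hev : ∀ j : Fin 2, ∀ᶠ p in (𝒰 : Filter Nat.Primes),
        approxPolyY α p (hrel ℂ lam j) = hrel (Fbar p) (s p) j := by
      intro j
      rw [← umk_eq_iff, ← psi2_eq φ hα, psi2_hrel φ hlam.symm]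
    have hlarge : ∀ᶠ p in (𝒰 : Filter Nat.Primes), 5 ≤ p.1 := by
      apply hcof
      have hpr : Function.Injective (fun p : Nat.Primes => p.1) := Nat.Primes.coe_nat_injective
      have htend0 : Tendsto (fun p : Nat.Primes => p.1) cofinite atTop := by
        rw [← Nat.cofinite_eq_atTop]
        exact hpr.tendsto_cofinite
      exact htend0.eventually_ge_atTop 5
    obtain ⟨p, ⟨⟨h0, h1⟩, h5⟩, B, hB1, hB2, hB3, hB4⟩ :=
      ((((hev 0).and (hev 1)).and hlarge).and hmem).exists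
    rw [presAlg_hom_iff] at hB4
    obtain ⟨y, hy⟩ := hB4
    have hy0 : aeval y (toLoc (Fbar p) (approxPolyY α p (hrel ℂ lam 0))) = 0 := hy 0
    have hy1 : aeval y (toLoc (Fbar p) (approxPolyY α p (hrel ℂ lam 1))) = 0 := hy 1
    rw [h0] at hy0
    rw [h1] at hy1
    exact not_seed_of_isSpecial p.1 h5 (Fbar p) (hs1 p h5) B hB3 y hy0 hy1

end Pool.Agent.Lib_helper40.BCP
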