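import Pool.Agent.Lib_helper40.BCP.AIC
import Pool.Agent.Lib_helper40.Generic

/-!
The monomial property for the absolute integral closure of `k[[x, y]]`, `k` of characteristic `p`.
-/

namespace Pool.Agent.Lib_helper40.BCP

open Polynomial

section

variable {k : Type} [Field k]

/-- the power series ring -/
abbrev P2 (k : Type) [Field k] : Type := MvPowerSeries (Fin 2) k

theorem eq_zero_of_forall_mono {d : P2 k} {a b a' b' : ℕ} (ha : a < a') (hb : b < b') (q : ℕ)
    {u w : P2 k} (h : d * (MvPowerSeries.X 0 ^ (a * q) * MvPowerSeries.X 1 ^ (b * q)) =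
      MvPowerSeries.X 0 ^ (a' * q) * u + MvPowerSeries.X 1 ^ (b' * q) * w)
    (m : Fin 2 →₀ ℕ) (h0 : m 0 < q) (h1 : m 1 < q) : MvPowerSeries.coeff m d = 0 := by
  classical
  set n : Fin 2 →₀ ℕ := Finsupp.single 0 (a * q) + Finsupp.single 1 (b * q) with hn
  have hn0 : n 0 = a * q := by simp [hn]
  have hn1 : n 1 = b * q := by simp [hn]
  have e1 : (MvPowerSeries.X 0 ^ (a * q) * MvPowerSeries.X 1 ^ (b * q) : P2 k) =
      MvPowerSeries.monomial n 1 := by
    rw [MvPowerSeries.X_pow_eq, MvPowerSeries.X_pow_eq, MvPowerSeries.monomial_mul_monomial, one_mul]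
  have h2 := congrArg (MvPowerSeries.coeff (m + n)) h
  have ha2 : a * q + q ≤ a' * q := by
    calc a * q + q = (a + 1) * q := by ring
      _ ≤ a' * q := Nat.mul_le_mul_right q ha
  have hb2 : b * q + q ≤ b' * q := by
    calc b * q + q = (b + 1) * q := by ring
      _ ≤ b' * q := Nat.mul_le_mul_right q hb
  rw [map_add, MvPowerSeries.X_pow_dvd_iff.mp (Dvd.intro u rfl) (m + n)
    (by rw [Finsupp.add_apply, hn0]; omega),
    MvPowerSeries.X_pow_dvd_iff.mp (Dvd.intro w rfl) (m + n)
    (by rw [Finsupp.add_apply, hn1]; omega), add_zero, e1,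
    MvPowerSeries.coeff_add_mul_monomial, mul_one] at h2
  exact h2

theorem mono_plus (p : ℕ) [Fact p.Prime] [CharP k p] {a b a' b' : ℕ} (ha : a < a') (hb : b < b')
    (u w : absIntClosure (P2 k)) :
    algebraMap (P2 k) (absIntClosure (P2 k)) (MvPowerSeries.X 0 ^ a * MvPowerSeries.X 1 ^ b) ≠
      algebraMap (P2 k) (absIntClosure (P2 k)) (MvPowerSeries.X 0 ^ a') * u +
        algebraMap (P2 k) (absIntClosure (P2 k)) (MvPowerSeries.X 1 ^ b') * w := by
  intro heq
  let K := FractionRing (P2 k)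
  let Ω := AlgebraicClosure K
  have heq' : algebraMap (P2 k) Ω (MvPowerSeries.X 0 ^ a * MvPowerSeries.X 1 ^ b) =
      algebraMap (P2 k) Ω (MvPowerSeries.X 0 ^ a') * u.1 +
        algebraMap (P2 k) Ω (MvPowerSeries.X 1 ^ b') * w.1 := congrArg Subtype.val heq
  have hinjK : Function.Injective (algebraMap (P2 k) K) := IsFractionRing.injective _ _
  have hinj : Function.Injective (algebraMap (P2 k) Ω) := by
    rw [IsScalarTower.algebraMap_eq (P2 k) K Ω]
    exact (algebraMap K Ω).injective.comp hinjK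
  have hcharP : CharP (P2 k) p := charP_ps k p
  have hchar : CharP Ω p := charP_of_injective_algebraMap hinj p
  -- a functional
  obtain ⟨lam, hlam⟩ := LinearMap.exists_leftInverse_of_injective (Algebra.linearMap K Ω)
    (LinearMap.ker_eq_bot.2 (algebraMap K Ω).injective)
  have hlam1 : ∀ x : K, lam (algebraMap K Ω x) = x := fun x => DFunLike.congr_fun hlam x
  have hlamP : ∀ (r : P2 k) (z : Ω), lam (algebraMap (P2 k) Ω r * z) =
      algebraMap (P2 k) K r * lam z := by
    intro r z
    rw [IsScalarTower.algebraMap_apply (P2 k) K Ω, ← Algebra.smul_def, map_smul, smul_eq_mul]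
  -- a finite algebra containing `u`, `w`
  let S : Subalgebra (P2 k) Ω := Algebra.adjoin (P2 k) {u.1, w.1}
  have hfg : (Subalgebra.toSubmodule S).FG :=
    fg_adjoin_of_finite (Set.toFinite _) (by
      rintro x (rfl | rfl)
      · exact u.2
      · exact w.2)
  obtain ⟨t, ht⟩ := hfg
  classical
  obtain ⟨d, hd⟩ := IsLocalization.exist_integer_multiples_of_finset (nonZeroDivisors (P2 k))
    (t.image lam)
  have hint : ∀ z : Ω, z ∈ S → ∃ c : P2 k, algebraMap (P2 k) K c =
      algebraMap (P2 k) K d.1 * lam z := by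
    intro z hz
    have hz' : z ∈ Submodule.span (P2 k) (t : Set Ω) := by
      rw [ht]
      exact hz
    induction hz' using Submodule.span_induction with
    | mem x hx =>
      obtain ⟨c, hc⟩ := hd (lam x) (Finset.mem_image_of_mem _ hx)
      exact ⟨c, by rw [hc, Algebra.smul_def]⟩
    | zero => exact ⟨0, by simp⟩
    | add x y hx hy hx' hy' =>
      obtain ⟨c, hc⟩ := hx' (by rw [← Subalgebra.mem_toSubmodule, ← ht]; exact hx)
      obtain ⟨c', hc'⟩ := hy' (by rw [← Subalgebra.mem_toSubmodule, ← ht]; exact hy)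
      exact ⟨c + c', by rw [map_add, hc, hc', map_add]; ring⟩
    | smul r x hx hx' =>
      obtain ⟨c, hc⟩ := hx' (by rw [← Subalgebra.mem_toSubmodule, ← ht]; exact hx)
      refine ⟨r * c, ?_⟩
      rw [map_mul, hc, Algebra.smul_def, hlamP]
      ring
  have huS : u.1 ∈ S := Algebra.subset_adjoin (by simp)
  have hwS : w.1 ∈ S := Algebra.subset_adjoin (by simp)
  have hd0 : d.1 = 0 := by
    ext m
    rw [map_zero]
    obtain ⟨e, he⟩ : ∃ e, m 0 + m 1 < p ^ e := ⟨m 0 + m 1,
      Nat.lt_pow_self (Fact.out : p.Prime).one_lt⟩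
    obtain ⟨cu, hcu⟩ := hint _ (S.pow_mem huS (p ^ e))
    obtain ⟨cw, hcw⟩ := hint _ (S.pow_mem hwS (p ^ e))
    have h1 := congrArg (fun z => z ^ (p ^ e)) heq'
    rw [add_pow_char_pow, mul_pow, mul_pow, ← map_pow, ← map_pow, ← map_pow, mul_pow, ← pow_mul,
      ← pow_mul, ← pow_mul, ← pow_mul] at h1
    have h2 := congrArg lam h1
    rw [map_add, hlamP, hlamP] at h2
    have h3 : lam (algebraMap (P2 k) Ω (MvPowerSeries.X 0 ^ (a * p ^ e) *
        MvPowerSeries.X 1 ^ (b * p ^ e))) = algebraMap (P2 k) K (MvPowerSeries.X 0 ^ (a * p ^ e) *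
        MvPowerSeries.X 1 ^ (b * p ^ e)) := by
      rw [IsScalarTower.algebraMap_apply (P2 k) K Ω, hlam1]
    rw [h3] at h2
    refine eq_zero_of_forall_mono ha hb (p ^ e) (d := d.1) (u := cu) (w := cw) ?_ m (by omega)
      (by omega)
    apply hinjK
    rw [map_mul, h2, map_add, map_mul _ _ cu, map_mul _ _ cw, hcu, hcw]
    ring
  exact nonZeroDivisors.ne_zero d.2 hd0

end

end Pool.Agent.Lib_helper40.BCP
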