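import Pool.Agent.Lib_helper40.BCMDefs

/-!
# Big Cohen-Macaulay algebras over the absolute integral closure: definitions
-/

namespace Pool.Agent.Lib_helper40.BCP

universe u

/-- The absolute integral closure `A⁺` of a domain `A`: the integral closure of `A` in the algebraic
closure of its field of fractions. -/
abbrev absIntClosure (A : Type u) [CommRing A] [IsDomain A] : Type u :=
  integralClosure A (AlgebraicClosure (FractionRing A))

/-- The `A`-algebra `S` admits an `A`-algebra homomorphism to some big Cohen-Macaulay `A`-algebra
`B` (living in the universe `w`) which is an algebra over the absolute integral closure `A⁺`: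
there is also an `A`-algebra homomorphism `A⁺ → B`. -/
def MapsToBigCMOverPlus.{w} (A : Type*) [CommRing A] [IsDomain A] [IsLocalRing A] (S : Type*)
    [CommRing S] [Algebra A S] : Prop :=
  ∃ (B : Type w) (_ : CommRing B) (_ : Algebra A B), IsBigCM A B ∧
    Nonempty (absIntClosure A →ₐ[A] B) ∧ Nonempty (S →ₐ[A] B)

/-- For polynomials `h_1, ..., h_r` in `Y_1, ..., Y_n` over `K[x, y]`: the algebra
`R[Y_1, ..., Y_n] / (h_1, ..., h_r)` over `R = K[x, y]_(x, y)` maps to some big Cohen-Macaulay
`R`-algebra which is an algebra over the absolute integral closure of `R`. -/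
def PresMapsToBigCMOverPlus.{w} (K : Type*) [Field K] {n r : ℕ}
    (h : Fin r → MvPolynomial (Fin n) (MvPolynomial (Fin 2) K)) : Prop :=
  MapsToBigCMOverPlus.{w} (Rloc K) (PresAlg (Rloc K) fun j => toLoc K (h j))

end Pool.Agent.Lib_helper40.BCP
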